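import Pool.Agent.X194.FK.Prob
import Pool.Agent.X194.FK.Cluster

/-!
# FK-Ising clusters of a hyperbolic graph need not be anchored hyperbolic (MP_4ab6d1_pr, Q1: no)

The graph: a spine `sp 0, sp 1, ...` in which `sp n` and `sp (n+1)` are joined by very many paths of
length two, with very many ladders of length `n` hanging at `sp n`. It is a quasi-tree, hence Gromov
hyperbolic. By finite energy, for each `p` in `(0,1)` almost surely for all large `n` the spine is
open and one of the ladders at `sp n` has all rails and the last rung open and the other rungs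
closed: this is a geodesic cycle of length `2n+3` through `sp n`, and gives a fat geodesic triangle
with one corner at the start of the open spine.
-/

open MeasureTheory Filter Topology Set

namespace Pool.Agent.Results.MP_4ab6d1_pr.FatTriangles

open Pool.Agent.X194.FK

/-- The configuration has an infinite cluster. -/
def HasInfiniteCluster {V : Type} (G : SimpleGraph V) (ω : Sym2 V → Bool) : Prop :=
  ∃ C : (openG G ω).ConnectedComponent, C.supp.Infinite

/-- The critical probability: the infimum of the `p` in `[0,1]` for which the free FK-Ising measure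
has an infinite cluster with positive probability. -/
noncomputable def pc {V : Type} (G : SimpleGraph V) : ℝ :=
  sInf {p : ℝ | 0 ≤ p ∧ p ≤ 1 ∧
    ∃ φ, IsFreeFK G p φ ∧ 0 < φ {ω | HasInfiniteCluster G ω}}

open Classical in
/-- exhaustion by levels -/
noncomputable def Hn (n : ℕ) : FinSub GG where
  W := (finite_level_le n).toFinset
  F := ((finite_level_le n).toFinset.sym2).filter (· ∈ GG.edgeSet)
  edge := fun _ he => (Finset.mem_filter.mp he).2
  inc := fun _ he x hx => Finset.mem_sym2_iff.mp (Finset.mem_filter.mp he).1 x hx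

theorem mem_W (n : ℕ) (v : Vx) : v ∈ (Hn n).W ↔ lv v ≤ n := by
  simp [Hn]

theorem mem_F (n : ℕ) (e : Sym2 Vx) : e ∈ (Hn n).F ↔ (∀ v ∈ e, lv v ≤ n) ∧ e ∈ GG.edgeSet := by
  simp only [Hn, Finset.mem_filter, Finset.mem_sym2_iff, Set.Finite.mem_toFinset,
    Set.mem_ofPred_eq]

theorem exhaustion : IsExhaustion GG Hn where
  monoW := fun n v hv => by rw [mem_W] at hv ⊢; omega
  monoF := fun n e he => by
    rw [mem_F] at he ⊢
    exact ⟨fun v hv => (he.1 v hv).trans (Nat.le_succ n), he.2⟩
  vert := fun v => ⟨lv v, by rw [mem_W]⟩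
  edge := fun e he => by
    induction e using Sym2.ind with
    | _ u v =>
    refine ⟨max (lv u) (lv v), ?_⟩
    rw [mem_F]
    refine ⟨fun w hw => ?_, he⟩
    rw [Sym2.mem_iff] at hw
    rcases hw with rfl | rfl
    · exact le_max_left _ _
    · exact le_max_right _ _

theorem bad_cluster {ω : Sym2 Vx → Bool} {N : ℕ} (h : ∀ n, N ≤ n → SpOK ω n ∧ LadOK ω n) :
    ∃ C : (openG GG ω).ConnectedComponent, C.supp.Infinite ∧
      ¬ AnchoredHyperbolic C.toSimpleGraph := by
  have hreach := spine_reach ω N (fun n hn => (h n hn).1)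
  refine ⟨(openG GG ω).connectedComponentMk (Vx.sp N), ?_, ?_⟩
  · refine Set.infinite_of_injective_forall_mem (f := fun k : ℕ => Vx.sp (N + k)) ?_ ?_
    · intro a b hab
      have : N + a = N + b := by injection hab
      omega
    · intro k
      rw [SimpleGraph.ConnectedComponent.mem_supp_iff]
      exact SimpleGraph.ConnectedComponent.sound (hreach k).symm
  · refine not_anchored _ (Vx.sp N) rfl fun δ => ?_
    have hN : N ≤ (δ + 1 + N) + (δ + 1 + N) := by omega
    obtain ⟨i, hcyc⟩ := (h _ hN).2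
    have hr := hreach (((δ + 1 + N) + (δ + 1 + N)) - N)
    rw [Nat.add_sub_cancel' hN] at hr
    exact fat_triangle ω N (δ + 1 + N) _ rfl (by omega) i hcyc hr δ (by omega)

theorem ae_bad {p : ℝ} (hp0 : 0 < p) (hp1 : p < 1) {φ : Measure (Sym2 Vx → Bool)}
    (h : IsFreeFK GG p φ) : ∀ᵐ ω ∂φ, ∃ C : (openG GG ω).ConnectedComponent, C.supp.Infinite ∧
      ¬ AnchoredHyperbolic C.toSimpleGraph := by
  filter_upwards [ae_good hp0 hp1 h] with ω hω
  obtain ⟨N, hN⟩ := hω
  exact bad_cluster hN

theorem pc_le {q : ℝ} (hq0 : 0 < q) (hq1 : q < 1) : pc GG ≤ q := by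
  refine csInf_le ⟨0, fun x hx => hx.1⟩ ⟨hq0.le, hq1.le, ?_⟩
  obtain ⟨φ, hφ⟩ := exists_free hq0 hq1 exhaustion
  refine ⟨φ, hφ, ?_⟩
  have := hφ.1
  have h1 : ∀ᵐ ω ∂φ, ω ∈ {ω | HasInfiniteCluster GG ω} := by
    filter_upwards [ae_bad hq0 hq1 hφ] with ω hω
    obtain ⟨C, hC, _⟩ := hω
    exact ⟨C, hC⟩
  have h2 : φ {ω | HasInfiniteCluster GG ω} = φ Set.univ :=
    measure_congr (Filter.eventuallyEq_univ.mpr h1)
  rw [h2, measure_univ]
  exact one_pos

theorem result : ∃ (V : Type) (_ : Countable V) (G : SimpleGraph V),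
    Infinite V ∧ G.Connected ∧ (∀ v, (G.neighborSet v).Finite) ∧ GromovHyperbolic G ∧
    ∀ p : ℝ, 0 < p → p < 1 → pc G < p ∧ (∃ φ, IsFreeFK G p φ) ∧
      ∀ φ, IsFreeFK G p φ → ∀ᵐ ω ∂φ, ∃ C : (openG G ω).ConnectedComponent,
        C.supp.Infinite ∧ ¬ AnchoredHyperbolic C.toSimpleGraph := by
  refine ⟨Vx, inferInstance, GG, inferInstance, connected, finite_nbr, hyperbolic,
    fun p hp0 hp1 => ⟨?_, exists_free hp0 hp1 exhaustion, fun φ hφ => ae_bad hp0 hp1 hφ⟩⟩
  have := pc_le (q := p / 2) (by linarith) (by linarith)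
  linarith

end Pool.Agent.Results.MP_4ab6d1_pr.FatTriangles
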